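import Mathlib

/-!
# Finite orbits on curves without separated multiples

If the field of separated multiples of an irreducible bivariate polynomial `p` is trivial, then
the curve of `p` in `P¹ × P¹` has only finitely many finite orbits.
-/

open Polynomial Polynomial.Bivariate

namespace Pool.Agent.Results.MP_f5f7dd_ag.FiniteOrbits

section Definitions

variable {K : Type*} [Field K]

/-- The degree in the inner variable `x` of `p ∈ K[x][y]`. The degree in the outer variable `y`
is `p.natDegree`. -/
noncomputable def degX (p : K[X][Y]) : ℕ := (Bivariate.swap p).natDegree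

/-- The bihomogenization `x₀^(deg_x p) y₀^(deg_y p) p(x₁ / x₀, y₁ / y₀)`, evaluated at
`v = (x₀, x₁)` and `w = (y₀, y₁)`. -/
noncomputable def bihom (p : K[X][Y]) (v w : K × K) : K :=
  ∑ i ∈ Finset.range (degX p + 1), ∑ j ∈ Finset.range (p.natDegree + 1),
    (p.coeff j).coeff i * (v.2 ^ i * v.1 ^ (degX p - i)) * (w.2 ^ j * w.1 ^ (p.natDegree - j))

/-- Homogeneous coordinates `(x₀, x₁)` of a point of `P¹(K) = K ∪ {∞}`: a finite point `x` is
`(1 : x)` and `∞` is `(0 : 1)`. -/
def hc (P : OnePoint K) : K × K := P.elim (0, 1) (fun x => (1, x))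

/-- The curve of `p` in `P¹(K) × P¹(K)`, the zero locus of the bihomogenization. -/
def curve (p : K[X][Y]) : Set (OnePoint K × OnePoint K) := {P | bihom p (hc P.1) (hc P.2) = 0}

/-- The graph on the points of the curve, joining two distinct points with the same first
coordinate or the same second coordinate. -/
def orbitGraph (p : K[X][Y]) : SimpleGraph (curve p) where
  Adj P Q := P ≠ Q ∧ (P.1.1 = Q.1.1 ∨ P.1.2 = Q.1.2)
  symm := ⟨fun _ _ h => ⟨h.1.symm, h.2.imp Eq.symm Eq.symm⟩⟩
  loopless := ⟨fun _ h => h.1 rfl⟩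

/-- The set `⟨p⟩` of all elements of `K(x, y)` whose reduced denominator is not divisible by `p`
and whose reduced numerator is divisible by `p`. -/
def multiples (p : K[X][Y]) : Set (FractionRing K[X][Y]) :=
  {q | ∃ a b : K[X][Y], b ≠ 0 ∧ IsRelPrime a b ∧
    q = algebraMap _ (FractionRing K[X][Y]) a / algebraMap _ (FractionRing K[X][Y]) b ∧
    ¬ p ∣ b ∧ p ∣ a}

/-- The inclusion `K(x) → K(x, y)`. -/
noncomputable def embX : RatFunc K →+* FractionRing K[X][Y] :=
  IsFractionRing.lift (A := K[X]) (K := RatFunc K)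
    (g := (algebraMap K[X][Y] (FractionRing K[X][Y])).comp (C : K[X] →+* K[X][Y]))
    ((IsFractionRing.injective K[X][Y] (FractionRing K[X][Y])).comp C_injective)

/-- The inclusion `K(y) → K(x, y)`. -/
noncomputable def embY : RatFunc K →+* FractionRing K[X][Y] :=
  IsFractionRing.lift (A := K[X]) (K := RatFunc K)
    (g := (algebraMap K[X][Y] (FractionRing K[X][Y])).comp (mapRingHom (C : K →+* K[X])))
    ((IsFractionRing.injective K[X][Y] (FractionRing K[X][Y])).comp
      (map_injective _ C_injective))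

/-- The field of separated multiples of `p`: pairs `(f, g)` in `K(x) × K(y)` with
`f(x) - g(y) ∈ ⟨p⟩`. -/
def separatedMultiples (p : K[X][Y]) : Set (RatFunc K × RatFunc K) :=
  {fg | embX fg.1 - embY fg.2 ∈ multiples p}

end Definitions

section Basic

variable {K : Type*} [Field K]

lemma coeff_swap (p : K[X][Y]) (i j : ℕ) :
    ((Bivariate.swap p).coeff i).coeff j = (p.coeff j).coeff i := by
  induction p using Polynomial.induction_on' with
  | add p q hp hq => simp [hp, hq]
  | monomial n a =>
    induction a using Polynomial.induction_on' with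
    | add a b ha hb =>
      rw [map_add, map_add, coeff_add, coeff_add, ha, hb, coeff_add, coeff_add]
    | monomial m r =>
      rw [Bivariate.swap_monomial_monomial]
      simp only [coeff_monomial]
      by_cases h1 : m = i <;> by_cases h2 : n = j <;> simp [h1, h2, coeff_monomial]

lemma natDegree_coeff_le (p : K[X][Y]) (j : ℕ) : (p.coeff j).natDegree ≤ degX p := by
  rw [natDegree_le_iff_coeff_eq_zero]
  intro i hi
  rw [← coeff_swap, coeff_eq_zero_of_natDegree_lt (p := Bivariate.swap p) hi, coeff_zero]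

lemma natDegree_coeff_swap_le (p : K[X][Y]) (i : ℕ) :
    ((Bivariate.swap p).coeff i).natDegree ≤ p.natDegree := by
  have := natDegree_coeff_le (Bivariate.swap p) i
  rwa [degX, Bivariate.swap_swap_apply] at this

lemma evalEval_swap (x y : K) (p : K[X][Y]) :
    (Bivariate.swap p).evalEval x y = p.evalEval y x := by
  rw [← coe_aevalAeval_eq_evalEval, ← coe_aevalAeval_eq_evalEval, Bivariate.aevalAeval_swap]

lemma evalEval_eq_sum (x y : K) (p : K[X][Y]) :
    p.evalEval x y = ∑ j ∈ Finset.range (p.natDegree + 1), (p.coeff j).eval x * y ^ j := by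
  rw [evalEval, eval_eq_sum_range (p := p), eval_finsetSum]
  apply Finset.sum_congr rfl
  intro j _
  rw [eval_mul, eval_pow, eval_C]

lemma hc_coe (x : K) : hc (x : OnePoint K) = (1, x) := rfl

lemma hc_infty : hc (OnePoint.infty : OnePoint K) = (0, 1) := rfl

lemma bihom_coe_coe (p : K[X][Y]) (x y : K) :
    bihom p (hc (x : OnePoint K)) (hc (y : OnePoint K)) = p.evalEval x y := by
  rw [hc_coe, hc_coe, bihom, Finset.sum_comm, evalEval_eq_sum]
  apply Finset.sum_congr rfl
  intro j _
  rw [eval_eq_sum_range' (Nat.lt_succ_of_le (natDegree_coeff_le p j)), Finset.sum_mul]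
  apply Finset.sum_congr rfl
  intro i _
  simp

lemma bihom_coe_infty (p : K[X][Y]) (x : K) :
    bihom p (hc (x : OnePoint K)) (hc OnePoint.infty) = p.leadingCoeff.eval x := by
  rw [hc_coe, hc_infty, bihom, Finset.sum_comm,
    Finset.sum_eq_single_of_mem p.natDegree (Finset.mem_range.mpr (Nat.lt_succ_self _))]
  · rw [leadingCoeff, eval_eq_sum_range' (Nat.lt_succ_of_le (natDegree_coeff_le p _))]
    apply Finset.sum_congr rfl
    intro i _
    simp
  · intro j hj hne
    apply Finset.sum_eq_zero
    intro i _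
    have : p.natDegree - j ≠ 0 := by
      have := Finset.mem_range.mp hj
      omega
    simp [this]

lemma bihom_swap (p : K[X][Y]) (v w : K × K) : bihom (Bivariate.swap p) v w = bihom p w v := by
  rw [bihom, bihom, Finset.sum_comm, degX, Bivariate.swap_swap_apply]
  apply Finset.sum_congr rfl
  intro i _
  apply Finset.sum_congr rfl
  intro j _
  rw [coeff_swap, degX]
  ring

lemma bihom_infty_coe (p : K[X][Y]) (y : K) :
    bihom p (hc OnePoint.infty) (hc (y : OnePoint K)) =
      (Bivariate.swap p).leadingCoeff.eval y := by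
  rw [← bihom_swap, bihom_coe_infty]

lemma irreducible_swap {p : K[X][Y]} (hp : Irreducible p) : Irreducible (Bivariate.swap p) :=
  (MulEquiv.irreducible_iff (Bivariate.swap (R := K)).toMulEquiv).mpr hp

lemma natDegree_ne_zero {p : K[X][Y]} (hx : ∀ u : K[X], p ≠ C u) : p.natDegree ≠ 0 :=
  fun h => hx _ (eq_C_of_natDegree_eq_zero h)

lemma swap_ne_C {p : K[X][Y]} (hy : ∀ u : K[X], p ≠ u.map C) (u : K[X]) :
    Bivariate.swap p ≠ C u := by
  intro h
  apply hy u
  rw [← Bivariate.swap_swap_apply p, h, Bivariate.swap_C]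

lemma swap_ne_map {p : K[X][Y]} (hx : ∀ u : K[X], p ≠ C u) (u : K[X]) :
    Bivariate.swap p ≠ u.map C := by
  intro h
  apply hx u
  rw [← Bivariate.swap_swap_apply p, h, Bivariate.swap_map_C]

/-- An irreducible `p` and a polynomial `q` that it does not divide have only finitely many
common zeros, in terms of first coordinates. -/
lemma exists_eliminant {p q : K[X][Y]} (hp : Irreducible p) (hdeg : p.natDegree ≠ 0)
    (hpq : ¬ p ∣ q) :
    ∃ r : K[X], r ≠ 0 ∧ ∀ x y, p.evalEval x y = 0 → q.evalEval x y = 0 → r.eval x = 0 := by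
  have hprim : p.IsPrimitive := hp.isPrimitive hdeg
  have hirr : Irreducible (p.map (algebraMap K[X] (RatFunc K))) :=
    (hprim.irreducible_iff_irreducible_map_fraction_map (K := RatFunc K)).mp hp
  have hcop : IsCoprime (p.map (algebraMap K[X] (RatFunc K)))
      (q.map (algebraMap K[X] (RatFunc K))) := by
    rw [hirr.coprime_iff_not_dvd]
    intro h
    exact hpq (hprim.dvd_of_fraction_map_dvd_fraction_map h)
  obtain ⟨u, v, -, -, huv⟩ := exists_mul_add_mul_eq_C_resultant p q le_rfl le_rfl (Or.inl hdeg)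
  refine ⟨resultant p q, ?_, ?_⟩
  · intro h0
    have h1 := Polynomial.resultant_ne_zero _ _ hcop
    apply h1
    have hinj : Function.Injective (algebraMap K[X] (RatFunc K)) :=
      IsFractionRing.injective K[X] (RatFunc K)
    rw [natDegree_map_eq_of_injective hinj, natDegree_map_eq_of_injective hinj,
      resultant_map_map, h0, map_zero]
  · intro x y hx hy
    have h1 := congrArg (fun s => s.evalEval x y) huv
    simp only [evalEval_add, evalEval_mul, hx, hy, zero_mul, evalEval_C] at h1
    rw [← h1, add_zero]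

/-- Distinct irreducible curves have finitely many common points. -/
lemma finite_common {p q : K[X][Y]} (hp : Irreducible p) (hx : ∀ u : K[X], p ≠ C u)
    (hy : ∀ u : K[X], p ≠ u.map C) (hpq : ¬ p ∣ q) :
    {P : K × K | p.evalEval P.1 P.2 = 0 ∧ q.evalEval P.1 P.2 = 0}.Finite := by
  obtain ⟨r, hr, h1⟩ := exists_eliminant hp (natDegree_ne_zero hx) hpq
  have hpq' : ¬ Bivariate.swap p ∣ Bivariate.swap q := by
    intro h
    apply hpq
    have := map_dvd (Bivariate.swap (R := K)) h
    rwa [Bivariate.swap_swap_apply, Bivariate.swap_swap_apply] at this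
  obtain ⟨r', hr', h2⟩ := exists_eliminant (irreducible_swap hp)
    (natDegree_ne_zero (swap_ne_C hy)) hpq'
  have hfin : ((r.rootSet K) ×ˢ (r'.rootSet K)).Finite :=
    (r.rootSet_finite K).prod (r'.rootSet_finite K)
  apply hfin.subset
  rintro ⟨a, b⟩ ⟨hp0, hq0⟩
  refine ⟨?_, ?_⟩
  · rw [mem_rootSet]
    exact ⟨hr, by simpa using h1 a b hp0 hq0⟩
  · rw [mem_rootSet]
    refine ⟨hr', ?_⟩
    have := h2 b a (by rw [evalEval_swap]; exact hp0) (by rw [evalEval_swap]; exact hq0)
    simpa using this

lemma not_dvd_derivative [CharZero K] {p : K[X][Y]} (hx : ∀ u : K[X], p ≠ C u) :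
    ¬ p ∣ derivative p := by
  intro h
  have hdeg := natDegree_ne_zero hx
  have h0 : derivative p ≠ 0 := by
    intro h0
    exact hdeg (derivative_eq_zero.mp h0)
  have h1 := natDegree_le_of_dvd h h0
  have h2 := natDegree_derivative_lt hdeg
  omega

end Basic

section Counting

variable {K : Type*} [Field K]

/-- One half of the conditions on a finite orbit avoiding the exceptional points: over each first
coordinate occurring in `O`, the fibre of the curve is finite, reduced, and contained in `O`. -/
def HalfGood (p : K[X][Y]) (O : Finset (K × K)) : Prop :=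
  ∀ P ∈ O, p.evalEval P.1 P.2 = 0 ∧ (derivative p).evalEval P.1 P.2 ≠ 0 ∧
    p.leadingCoeff.eval P.1 ≠ 0 ∧ ∀ b, p.evalEval P.1 b = 0 → (P.1, b) ∈ O

/-- The polynomial `p(a, Y)`. -/
noncomputable def spec (p : K[X][Y]) (a : K) : K[X] := p.map (evalRingHom a)

lemma eval_spec (p : K[X][Y]) (a b : K) : (spec p a).eval b = p.evalEval a b := by
  rw [spec, map_evalRingHom_eval]

lemma natDegree_spec {p : K[X][Y]} {a : K} (h : p.leadingCoeff.eval a ≠ 0) :
    (spec p a).natDegree = p.natDegree :=
  natDegree_map_of_leadingCoeff_ne_zero _ h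

lemma card_roots_spec [IsAlgClosed K] [DecidableEq K] {p : K[X][Y]} {a : K}
    (h : p.leadingCoeff.eval a ≠ 0)
    (hd : ∀ b, p.evalEval a b = 0 → (derivative p).evalEval a b ≠ 0) :
    (spec p a).roots.toFinset.card = p.natDegree := by
  have h1 : (spec p a).Splits := IsAlgClosed.splits _
  have h2 : (spec p a).roots.Nodup := by
    rw [Multiset.nodup_iff_count_le_one]
    intro b
    rw [count_roots]
    by_contra hlt
    have h0 : spec p a ≠ 0 := by
      intro h0
      rw [h0, rootMultiplicity_zero] at hlt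
      omega
    have h3 := (one_lt_rootMultiplicity_iff_isRoot h0).mp (not_le.mp hlt)
    apply hd b
    · rw [← eval_spec]; exact h3.1
    · have h4 := h3.2
      rw [spec, derivative_map, ← spec, IsRoot.def, eval_spec] at h4
      exact h4
  rw [Multiset.toFinset_card_of_nodup h2, ← h1.natDegree_eq_card_roots, natDegree_spec h]

lemma card_orbit [IsAlgClosed K] [DecidableEq K] {p : K[X][Y]} {O : Finset (K × K)}
    (hO : HalfGood p O) : O.card = p.natDegree * (O.image Prod.fst).card := by
  rw [Finset.card_eq_sum_card_image Prod.fst O, mul_comm]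
  apply Finset.sum_const_nat
  intro a ha
  obtain ⟨P, hP, rfl⟩ := Finset.mem_image.mp ha
  have hfib : ∀ b, (P.1, b) ∈ O ↔ p.evalEval P.1 b = 0 :=
    fun b => ⟨fun h => (hO _ h).1, fun h => (hO _ hP).2.2.2 b h⟩
  rw [← card_roots_spec (hO _ hP).2.2.1 (fun b hb => (hO _ ((hfib b).mpr hb)).2.1)]
  apply Finset.card_bij (fun Q _ => Q.2)
  · intro Q hQ
    rw [Finset.mem_filter] at hQ
    rw [Multiset.mem_toFinset, mem_roots', IsRoot.def, eval_spec, ← hfib, ← hQ.2]
    refine ⟨?_, hQ.1⟩
    intro h0
    have h1 := (hO _ hP).2.1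
    have h2 : (derivative (spec p P.1)).eval P.2 = (derivative p).evalEval P.1 P.2 := by
      rw [spec, derivative_map, ← spec, eval_spec]
    rw [hQ.2] at h0
    rw [← h2, h0] at h1
    simp at h1
  · intro Q hQ Q' hQ' h
    rw [Finset.mem_filter] at hQ hQ'
    exact Prod.ext (hQ.2.trans hQ'.2.symm) h
  · intro b hb
    rw [Multiset.mem_toFinset, mem_roots', IsRoot.def, eval_spec, ← hfib] at hb
    exact ⟨(P.1, b), Finset.mem_filter.mpr ⟨hb.2, rfl⟩, rfl⟩

end Counting

section Valuations

variable {K : Type*} [Field K] {L : Type*} [Field L] [Algebra K L]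

/-- `B` contains the constants. -/
def HasConst (K : Type*) [Field K] {L : Type*} [Field L] [Algebra K L] (B : ValuationSubring L) :
    Prop := ∀ c : K, algebraMap K L c ∈ B

variable {B : ValuationSubring L}

lemma val_const (hB : HasConst K B) {c : K} (hc : c ≠ 0) :
    B.valuation (algebraMap K L c) = 1 := by
  have h1 := (B.valuation_le_one_iff _).mpr (hB c)
  have h2 := (B.valuation_le_one_iff _).mpr (hB c⁻¹)
  apply le_antisymm h1
  have h3 : B.valuation (algebraMap K L c) * B.valuation (algebraMap K L c⁻¹) = 1 := by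
    rw [← map_mul, ← map_mul, mul_inv_cancel₀ hc, map_one, map_one]
  by_contra hlt
  have hlt := not_le.mp hlt
  have h4 : B.valuation (algebraMap K L c) * B.valuation (algebraMap K L c⁻¹) < 1 :=
    mul_lt_one_of_lt_of_le hlt h2
  exact h4.ne h3

lemma mem_of_sub_lt (hB : HasConst K B) {x : L} {a : K}
    (h : B.valuation (x - algebraMap K L a) < 1) : x ∈ B := by
  have h1 : x = (x - algebraMap K L a) + algebraMap K L a := by ring
  rw [h1]
  exact B.add_mem _ _ ((B.valuation_le_one_iff _).mp h.le) (hB a)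

lemma aeval_mem (hB : HasConst K B) {x : L} (hx : x ∈ B) (u : K[X]) : aeval x u ∈ B := by
  induction u using Polynomial.induction_on' with
  | add p q hp hq => rw [map_add]; exact B.add_mem _ _ hp hq
  | monomial n a =>
    rw [aeval_monomial]
    exact B.mul_mem _ _ (hB a) (B.toSubring.pow_mem hx n)

lemma aevalAeval_mem (hB : HasConst K B) {x y : L} (hx : x ∈ B) (hy : y ∈ B) (u : K[X][Y]) :
    aevalAeval x y u ∈ B := by
  induction u using Polynomial.induction_on' with
  | add p q hp hq => rw [map_add]; exact B.add_mem _ _ hp hq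
  | monomial n a =>
    have : aevalAeval x y (monomial n a) = aeval x a * y ^ n := by
      rw [← C_mul_X_pow_eq_monomial]; simp
    rw [this]
    exact B.mul_mem _ _ (aeval_mem hB hx a) (B.toSubring.pow_mem hy n)

/-- A polynomial not vanishing at the centre is a unit. -/
lemma val_aeval (hB : HasConst K B) {x : L} {a : K}
    (h : B.valuation (x - algebraMap K L a) < 1) {u : K[X]} (hu : u.eval a ≠ 0) :
    B.valuation (aeval x u) = 1 := by
  obtain ⟨w, hw⟩ := X_sub_C_dvd_sub_C_eval (a := a) (p := u)
  have h1 : aeval x u = algebraMap K L (u.eval a) + (x - algebraMap K L a) * aeval x w := by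
    have := congrArg (aeval x) hw
    simp only [map_sub, map_mul, aeval_X, aeval_C] at this
    linear_combination this
  have h2 : B.valuation ((x - algebraMap K L a) * aeval x w) < 1 := by
    rw [map_mul]
    exact mul_lt_one_of_lt_of_le h ((B.valuation_le_one_iff _).mpr
      (aeval_mem hB (mem_of_sub_lt hB h) w))
  rw [h1, Valuation.map_add_eq_of_lt_left _ (by rw [val_const hB hu]; exact h2), val_const hB hu]

/-- Away from the centre, the valuation of `x - a` is `max 1 (v x)`. -/
lemma val_sub (hB : HasConst K B) {x : L} {a : K}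
    (h : ¬ B.valuation (x - algebraMap K L a) < 1) :
    B.valuation (x - algebraMap K L a) = max 1 (B.valuation x) := by
  have ha : B.valuation (algebraMap K L a) ≤ 1 := (B.valuation_le_one_iff _).mpr (hB a)
  rcases le_or_gt (B.valuation x) 1 with hx | hx
  · rw [max_eq_left hx]
    apply le_antisymm _ (not_lt.mp h)
    exact (B.valuation.map_sub _ _).trans (max_le hx ha)
  · rw [max_eq_right hx.le]
    exact Valuation.map_sub_eq_of_lt_left _ (lt_of_le_of_lt ha hx)

lemma unique_centre (hB : HasConst K B) {x : L} {a b : K}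
    (h : B.valuation (x - algebraMap K L a) < 1) (h' : B.valuation (x - algebraMap K L b) < 1) :
    a = b := by
  by_contra hne
  have h1 : B.valuation (algebraMap K L (b - a)) < 1 := by
    have : algebraMap K L (b - a) = (x - algebraMap K L a) - (x - algebraMap K L b) := by
      rw [map_sub]; ring
    rw [this]
    exact lt_of_le_of_lt (B.valuation.map_sub _ _) (max_lt h h')
  rw [val_const hB (sub_ne_zero.mpr (Ne.symm hne))] at h1
  exact lt_irrefl _ h1

/-- The lifting lemma: at a centre `a` of `x` over which the fibre is good, `y` has a centre in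
the fibre, with `v (y - b) ≤ v (x - a)`. -/
lemma exists_centre [IsAlgClosed K] (hB : HasConst K B) {p : K[X][Y]} {O : Finset (K × K)}
    (hdeg : p.natDegree ≠ 0) (hO : HalfGood p O) {x y : L} (hxy : aevalAeval x y p = 0)
    {P : K × K} (hP : P ∈ O) (h : B.valuation (x - algebraMap K L P.1) < 1) :
    ∃ b, (P.1, b) ∈ O ∧ B.valuation (y - algebraMap K L b) < 1 ∧
      B.valuation (y - algebraMap K L b) ≤ B.valuation (x - algebraMap K L P.1) := by
  have hxB : x ∈ B := mem_of_sub_lt hB h
  -- `y` is integral over `B`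
  have hyB : y ∈ B := by
    have hlead : B.valuation (aeval x p.leadingCoeff) = 1 := val_aeval hB h (hO P hP).2.2.1
    by_contra hyB
    have hy1 : 1 < B.valuation y := by
      rw [← not_le]
      intro h
      exact hyB ((B.valuation_le_one_iff _).mp h)
    have h1 : aevalAeval x y p = ∑ j ∈ Finset.range (p.natDegree + 1),
        aeval x (p.coeff j) * y ^ j := by
      conv_lhs => rw [p.as_sum_range_C_mul_X_pow]
      simp
    rw [h1, Finset.sum_range_succ] at hxy
    have h2 : B.valuation (∑ j ∈ Finset.range p.natDegree, aeval x (p.coeff j) * y ^ j) <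
        B.valuation y ^ p.natDegree := by
      apply Valuation.map_sum_lt
      · exact pow_ne_zero _ (ne_of_gt (lt_trans zero_lt_one hy1))
      · intro j hj
        rw [map_mul, map_pow]
        calc B.valuation (aeval x (p.coeff j)) * B.valuation y ^ j
            ≤ 1 * B.valuation y ^ j := by
              gcongr
              exact (B.valuation_le_one_iff _).mpr (aeval_mem hB hxB _)
          _ = B.valuation y ^ j := one_mul _
          _ < B.valuation y ^ p.natDegree :=
              pow_lt_pow_right₀ hy1 (Finset.mem_range.mp hj)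
    have h3 : B.valuation (aeval x (p.coeff p.natDegree) * y ^ p.natDegree) =
        B.valuation y ^ p.natDegree := by
      rw [map_mul, map_pow, coeff_natDegree, hlead, one_mul]
    have h4 : aeval x (p.coeff p.natDegree) * y ^ p.natDegree =
        - ∑ j ∈ Finset.range p.natDegree, aeval x (p.coeff j) * y ^ j := by
      linear_combination hxy
    rw [h4, Valuation.map_neg] at h3
    exact h2.ne h3
  -- specialization
  have hdvd : C (X - C P.1) ∣ p - (spec p P.1).map C := by
    rw [C_dvd_iff_dvd_coeff]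
    intro j
    have : (p - (spec p P.1).map C).coeff j = p.coeff j - C ((p.coeff j).eval P.1) := by
      rw [coeff_sub, coeff_map, spec, coeff_map, coe_evalRingHom]
    rw [this]
    exact X_sub_C_dvd_sub_C_eval
  obtain ⟨q, hq⟩ := hdvd
  have hmapC : ∀ u : K[X], aevalAeval x y (u.map C) = aeval y u := by
    intro u
    induction u using Polynomial.induction_on' with
    | add p q hp hq => rw [Polynomial.map_add, map_add, map_add, hp, hq]
    | monomial n a => rw [map_monomial, ← C_mul_X_pow_eq_monomial]; simp [aeval_monomial]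
  have hspec : aeval y (spec p P.1) = - ((x - algebraMap K L P.1) * aevalAeval x y q) := by
    have := congrArg (aevalAeval x y) hq
    rw [map_sub, hxy, map_mul, hmapC] at this
    have h5 : aevalAeval x y (C (X - C P.1)) = x - algebraMap K L P.1 := by simp
    rw [h5] at this
    linear_combination -this
  have hval : B.valuation (aeval y (spec p P.1)) ≤ B.valuation (x - algebraMap K L P.1) := by
    rw [hspec, Valuation.map_neg, map_mul]
    exact mul_le_of_le_one_right' ((B.valuation_le_one_iff _).mpr (aevalAeval_mem hB hxB hyB q))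
  have hspl : (spec p P.1).Splits := IsAlgClosed.splits _
  have hlc : (spec p P.1).leadingCoeff ≠ 0 := by
    rw [leadingCoeff_ne_zero]
    intro h0
    have h6 := natDegree_spec (hO P hP).2.2.1
    rw [h0, natDegree_zero] at h6
    exact hdeg h6.symm
  have hex : ∃ b, b ∈ (spec p P.1).roots ∧ B.valuation (y - algebraMap K L b) < 1 := by
    by_contra! hno
    have h6 : ∀ b ∈ (spec p P.1).roots, B.valuation (y - algebraMap K L b) = 1 := by
      intro b hb
      apply le_antisymm _ (hno b hb)
      exact (B.valuation_le_one_iff _).mpr (B.sub_mem hyB (hB b))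
    have h7 : aeval y (spec p P.1) = algebraMap K L (spec p P.1).leadingCoeff *
        ((spec p P.1).roots.map fun b => y - algebraMap K L b).prod := by
      conv_lhs => rw [hspl.eq_prod_roots]
      rw [map_mul, aeval_C, map_multiset_prod, Multiset.map_map]
      simp
    have h8 : B.valuation (aeval y (spec p P.1)) = 1 := by
      rw [h7, map_mul, val_const hB hlc, one_mul, map_multiset_prod, Multiset.map_map]
      apply Multiset.prod_eq_one
      intro z hz
      obtain ⟨b, hb, rfl⟩ := Multiset.mem_map.mp hz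
      exact h6 b hb
    rw [h8] at hval
    exact absurd h (not_lt.mpr hval)
  obtain ⟨b, hb, hbv⟩ := hex
  have hb0 : p.evalEval P.1 b = 0 := by
    rw [← eval_spec]
    exact (mem_roots'.mp hb).2
  have hbO := (hO P hP).2.2.2 b hb0
  refine ⟨b, hbO, hbv, ?_⟩
  obtain ⟨R, hR⟩ := dvd_iff_isRoot.mpr (mem_roots'.mp hb).2
  have hRb : R.eval b ≠ 0 := by
    intro h0
    apply (hO _ hbO).2.1
    have h9 : (derivative (spec p P.1)).eval b = (derivative p).evalEval P.1 b := by
      rw [spec, derivative_map, ← spec, eval_spec]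
    simp only
    rw [← h9, hR, derivative_mul]
    simp [h0]
  have h10 : B.valuation (aeval y (spec p P.1)) = B.valuation (y - algebraMap K L b) := by
    rw [hR, map_mul, map_mul, val_aeval hB hbv hRb, mul_one]
    simp
  rw [← h10]
  exact hval

/-- An element which is a unit at all places over `K` is constant. -/
lemma const_of_unit [IsAlgClosed K] {h : L}
    (hunit : ∀ B : ValuationSubring L, HasConst K B → B.valuation h = 1) :
    ∃ c : K, algebraMap K L c = h := by
  by_contra hno
  have halg : ¬ IsIntegral K h := by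
    intro hint
    have hdeg := IsAlgClosed.degree_eq_one_of_irreducible K (minpoly.irreducible hint)
    exact hno (minpoly.mem_range_of_degree_eq_one K h hdeg)
  let A : Subring L := (Algebra.adjoin K {h}).toSubring
  have hhA : h ∈ A := Algebra.subset_adjoin rfl
  let I : Ideal A := Ideal.span {⟨h, hhA⟩}
  have hI : I ≠ ⊤ := by
    intro htop
    have h1 : (1 : A) ∈ I := by rw [htop]; trivial
    obtain ⟨a, ha⟩ := Ideal.mem_span_singleton'.mp h1
    have h2 : (a : L) * h = 1 := congrArg Subtype.val ha
    have ha2 : (a : L) ∈ Algebra.adjoin K {h} := a.2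
    rw [Algebra.adjoin_singleton_eq_range_aeval] at ha2
    obtain ⟨u, hu⟩ := ha2
    have h3 : aeval h (u * X - 1) = 0 := by
      rw [map_sub, map_mul, aeval_X, map_one]
      have hu' : aeval h u = (a : L) := hu
      rw [hu', h2, sub_self]
    have h4 : u * X - 1 ≠ 0 := by
      intro h0
      have := congrArg (eval 0) h0
      simp at this
    exact halg (isAlgebraic_iff_isIntegral.mp ⟨_, h4, h3⟩)
  obtain ⟨B, hAB, hIB⟩ := Ideal.image_subset_nonunits_valuationSubring I hI
  have hB : HasConst K B := fun c => hAB (Subalgebra.algebraMap_mem (Algebra.adjoin K {h}) c)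
  have h1 : h ∈ B.nonunits := hIB ⟨⟨h, hhA⟩, Ideal.mem_span_singleton_self _, rfl⟩
  rw [ValuationSubring.mem_nonunits_iff, hunit B hB] at h1
  exact lt_irrefl _ h1

/-- `∏ (X - a)` over a finite set. -/
noncomputable def prodPoly (A : Finset K) : K[X] := ∏ a ∈ A, (X - C a)

lemma prodPoly_ne_zero (A : Finset K) : prodPoly A ≠ 0 :=
  Finset.prod_ne_zero_iff.mpr fun a _ => X_sub_C_ne_zero a

lemma eval_prodPoly_ne_zero {A : Finset K} {a : K} (ha : a ∉ A) : (prodPoly A).eval a ≠ 0 := by
  rw [prodPoly, eval_prod, Finset.prod_ne_zero_iff]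
  intro b hb
  rw [eval_sub, eval_X, eval_C, sub_ne_zero]
  rintro rfl
  exact ha hb

lemma eval_prodPoly_eq_zero {A : Finset K} {a : K} (ha : a ∈ A) : (prodPoly A).eval a = 0 := by
  rw [prodPoly, eval_prod, Finset.prod_eq_zero_iff]
  exact ⟨a, ha, by simp⟩

lemma val_prodPoly_centre [DecidableEq K] (hB : HasConst K B) {x : L} {a : K}
    (h : B.valuation (x - algebraMap K L a) < 1) {A : Finset K} (ha : a ∈ A) :
    B.valuation (aeval x (prodPoly A)) = B.valuation (x - algebraMap K L a) := by
  rw [prodPoly, ← Finset.mul_prod_erase A _ ha, map_mul, map_mul]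
  have h1 : (∏ b ∈ A.erase a, (X - C b)).eval a ≠ 0 :=
    eval_prodPoly_ne_zero (Finset.notMem_erase a A)
  rw [val_aeval hB h h1, mul_one]
  simp

lemma val_prodPoly_off (hB : HasConst K B) {x : L} {A : Finset K}
    (h : ∀ a ∈ A, ¬ B.valuation (x - algebraMap K L a) < 1) :
    B.valuation (aeval x (prodPoly A)) = (max 1 (B.valuation x)) ^ A.card := by
  rw [prodPoly, map_prod, map_prod]
  apply Finset.prod_eq_pow_card
  intro a ha
  rw [← val_sub hB (h a ha)]
  simp

omit [Field K] in
/-- The exchange of the two coordinates. -/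
def flip [DecidableEq K] (O : Finset (K × K)) : Finset (K × K) := O.image Prod.swap

omit [Field K] in
lemma mem_flip [DecidableEq K] {O : Finset (K × K)} {a b : K} :
    (a, b) ∈ flip O ↔ (b, a) ∈ O := by
  rw [flip, Finset.mem_image]
  constructor
  · rintro ⟨⟨c, d⟩, h, h'⟩
    rw [Prod.swap_prod_mk, Prod.mk.injEq] at h'
    rw [← h'.1, ← h'.2]
    exact h
  · intro h
    exact ⟨(b, a), h, rfl⟩

omit [Field K] in
lemma flip_flip [DecidableEq K] (O : Finset (K × K)) : flip (flip O) = O := by
  ext ⟨a, b⟩
  rw [mem_flip, mem_flip]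

/-- Both halves of the goodness conditions. -/
structure Good [DecidableEq K] (p : K[X][Y]) (O : Finset (K × K)) : Prop where
  fst : HalfGood p O
  snd : HalfGood (Bivariate.swap p) (flip O)

lemma Good.flip [DecidableEq K] {p : K[X][Y]} {O : Finset (K × K)} (h : Good p O) :
    Good (Bivariate.swap p) (flip O) :=
  ⟨h.snd, by rw [Bivariate.swap_swap_apply, flip_flip]; exact h.fst⟩

/-- The centre of `(x, y)` over a good orbit. -/
lemma centre_pair [IsAlgClosed K] [DecidableEq K] (hB : HasConst K B) {p : K[X][Y]}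
    {O : Finset (K × K)} (hdeg : p.natDegree ≠ 0) (hdeg' : (Bivariate.swap p).natDegree ≠ 0)
    (hO : Good p O) {x y : L} (hxy : aevalAeval x y p = 0)
    {P : K × K} (hP : P ∈ O) (h : B.valuation (x - algebraMap K L P.1) < 1) :
    ∃ b, (P.1, b) ∈ O ∧ B.valuation (y - algebraMap K L b) < 1 ∧
      B.valuation (y - algebraMap K L b) = B.valuation (x - algebraMap K L P.1) := by
  obtain ⟨b, hb, hb1, hb2⟩ := exists_centre hB hdeg hO.fst hxy hP h
  obtain ⟨a, ha, ha1, ha2⟩ := exists_centre (P := (b, P.1)) hB hdeg' hO.snd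
    (x := y) (y := x) (by rw [Bivariate.aevalAeval_swap]; exact hxy) (mem_flip.mpr hb) hb1
  have := unique_centre hB ha1 h
  rw [this] at ha2
  exact ⟨b, hb, hb1, le_antisymm hb2 ha2⟩

/-- The valuation computation for the first orbit, when `x` is centred on it. -/
lemma val_case [IsAlgClosed K] [DecidableEq K] (hB : HasConst K B) {p : K[X][Y]}
    {O O' : Finset (K × K)} (hdeg : p.natDegree ≠ 0)
    (hdeg' : (Bivariate.swap p).natDegree ≠ 0)
    (hO : Good p O) (hO' : Good p O') (hdisj : Disjoint O O') {x y : L}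
    (hxy : aevalAeval x y p = 0)
    {P : K × K} (hP : P ∈ O) (h : B.valuation (x - algebraMap K L P.1) < 1) :
    B.valuation (aeval x (prodPoly (O.image Prod.fst))) =
      B.valuation (aeval y (prodPoly (O.image Prod.snd))) ∧
    B.valuation (aeval x (prodPoly (O'.image Prod.fst))) = 1 ∧
    B.valuation (aeval y (prodPoly (O'.image Prod.snd))) = 1 := by
  obtain ⟨b, hb, hb1, hb2⟩ := centre_pair hB hdeg hdeg' hO hxy hP h
  refine ⟨?_, ?_, ?_⟩
  · rw [val_prodPoly_centre hB h (Finset.mem_image_of_mem _ hP),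
      val_prodPoly_centre hB hb1 (Finset.mem_image.mpr ⟨_, hb, rfl⟩), hb2]
  · apply val_aeval hB h
    apply eval_prodPoly_ne_zero
    intro hmem
    obtain ⟨Q, hQ, hQP⟩ := Finset.mem_image.mp hmem
    have h1 := (hO'.fst Q hQ).2.2.2 b (by rw [hQP]; exact (hO.fst _ hb).1)
    rw [hQP] at h1
    exact Finset.disjoint_left.mp hdisj hb h1
  · apply val_aeval hB hb1
    apply eval_prodPoly_ne_zero
    intro hmem
    obtain ⟨Q, hQ, hQP⟩ := Finset.mem_image.mp hmem
    have hQ' : (Q.2, Q.1) ∈ flip O' := mem_flip.mpr hQ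
    have h1 := (hO'.snd _ hQ').2.2.2 P.1 (by
      simp only [hQP]
      rw [evalEval_swap]
      exact (hO.fst _ hb).1)
    rw [mem_flip] at h1
    simp only [hQP] at h1
    exact Finset.disjoint_left.mp hdisj hb h1

/-- The key identity of valuations. -/
lemma val_ratio [IsAlgClosed K] [DecidableEq K] (hB : HasConst K B) {p : K[X][Y]}
    {O O' : Finset (K × K)} (hdeg : p.natDegree ≠ 0)
    (hdeg' : (Bivariate.swap p).natDegree ≠ 0)
    (hO : Good p O) (hO' : Good p O') (hdisj : Disjoint O O') {x y : L}
    (hxy : aevalAeval x y p = 0) {m m' : ℕ}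
    (h1 : m * (O.image Prod.fst).card = m' * (O'.image Prod.fst).card)
    (h2 : m * (O.image Prod.snd).card = m' * (O'.image Prod.snd).card) :
    B.valuation (aeval x (prodPoly (O.image Prod.fst))) ^ m *
      B.valuation (aeval y (prodPoly (O'.image Prod.snd))) ^ m' =
    B.valuation (aeval y (prodPoly (O.image Prod.snd))) ^ m *
      B.valuation (aeval x (prodPoly (O'.image Prod.fst))) ^ m' := by
  by_cases c1 : ∃ P ∈ O, B.valuation (x - algebraMap K L P.1) < 1
  · obtain ⟨P, hP, h⟩ := c1
    obtain ⟨e1, e2, e3⟩ := val_case hB hdeg hdeg' hO hO' hdisj hxy hP h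
    rw [e1, e2, e3]
  by_cases c2 : ∃ P ∈ O', B.valuation (x - algebraMap K L P.1) < 1
  · obtain ⟨P, hP, h⟩ := c2
    obtain ⟨e1, e2, e3⟩ := val_case hB hdeg hdeg' hO' hO hdisj.symm hxy hP h
    rw [e1, e2, e3]
  push Not at c1 c2
  have hxy' : aevalAeval y x (Bivariate.swap p) = 0 := by
    rw [Bivariate.aevalAeval_swap]; exact hxy
  have hdeg'' : (Bivariate.swap (Bivariate.swap p)).natDegree ≠ 0 := by
    rw [Bivariate.swap_swap_apply]; exact hdeg
  have c3 : ∀ P ∈ O, ¬ B.valuation (y - algebraMap K L P.2) < 1 := by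
    intro P hP h
    obtain ⟨a, ha, ha1, -⟩ := centre_pair (P := (P.2, P.1)) hB hdeg' hdeg'' hO.flip hxy'
      (mem_flip.mpr hP) h
    exact absurd ha1 (not_lt.mpr (c1 _ (mem_flip.mp ha)))
  have c4 : ∀ P ∈ O', ¬ B.valuation (y - algebraMap K L P.2) < 1 := by
    intro P hP h
    obtain ⟨a, ha, ha1, -⟩ := centre_pair (P := (P.2, P.1)) hB hdeg' hdeg'' hO'.flip hxy'
      (mem_flip.mpr hP) h
    exact absurd ha1 (not_lt.mpr (c2 _ (mem_flip.mp ha)))
  have d1 : ∀ a ∈ O.image Prod.fst, ¬ B.valuation (x - algebraMap K L a) < 1 := by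
    intro a ha
    obtain ⟨P, hP, rfl⟩ := Finset.mem_image.mp ha
    exact not_lt.mpr (c1 P hP)
  have d2 : ∀ a ∈ O'.image Prod.fst, ¬ B.valuation (x - algebraMap K L a) < 1 := by
    intro a ha
    obtain ⟨P, hP, rfl⟩ := Finset.mem_image.mp ha
    exact not_lt.mpr (c2 P hP)
  have d3 : ∀ a ∈ O.image Prod.snd, ¬ B.valuation (y - algebraMap K L a) < 1 := by
    intro a ha
    obtain ⟨P, hP, rfl⟩ := Finset.mem_image.mp ha
    exact c3 P hP
  have d4 : ∀ a ∈ O'.image Prod.snd, ¬ B.valuation (y - algebraMap K L a) < 1 := by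
    intro a ha
    obtain ⟨P, hP, rfl⟩ := Finset.mem_image.mp ha
    exact c4 P hP
  rw [val_prodPoly_off hB d1, val_prodPoly_off hB d2, val_prodPoly_off hB d3,
    val_prodPoly_off hB d4, ← pow_mul, ← pow_mul, ← pow_mul, ← pow_mul, mul_comm _ m, mul_comm _ m',
    mul_comm _ m, mul_comm _ m', h1, h2, mul_comm]

end Valuations

section Separated

variable {K : Type*} [Field K]

lemma mem_multiples {p a b : K[X][Y]} (hp : Irreducible p) (hb : ¬ p ∣ b) (ha : p ∣ a) :
    algebraMap _ (FractionRing K[X][Y]) a / algebraMap _ (FractionRing K[X][Y]) b ∈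
      multiples p := by
  have hinj := IsFractionRing.injective K[X][Y] (FractionRing K[X][Y])
  have hb0 : b ≠ 0 := fun h => hb (h ▸ dvd_zero p)
  obtain ⟨a', b', hrel, heq⟩ := IsFractionRing.exists_reduced_fraction (A := K[X][Y])
    (algebraMap _ (FractionRing K[X][Y]) a / algebraMap _ (FractionRing K[X][Y]) b)
  have hb'0 : (b' : K[X][Y]) ≠ 0 := nonZeroDivisors.ne_zero b'.2
  have h1 : algebraMap _ (FractionRing K[X][Y]) a' /
      algebraMap _ (FractionRing K[X][Y]) (b' : K[X][Y]) =
      algebraMap _ (FractionRing K[X][Y]) a / algebraMap _ (FractionRing K[X][Y]) b := by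
    rw [← heq, IsFractionRing.mk'_eq_div]
  have hmap0 : ∀ c : K[X][Y], c ≠ 0 → algebraMap _ (FractionRing K[X][Y]) c ≠ 0 := by
    intro c hc h
    exact hc (hinj (by rw [h, map_zero]))
  have h2 : a' * b = a * b' := by
    rw [div_eq_div_iff (hmap0 _ hb'0) (hmap0 _ hb0), ← map_mul, ← map_mul] at h1
    exact hinj h1
  have h3 : p ∣ a' := by
    have : p ∣ a' * b := by rw [h2]; exact ha.mul_right _
    exact (hp.prime.dvd_or_dvd this).resolve_right hb
  refine ⟨a', b', hb'0, hrel, h1.symm, fun h => ?_, h3⟩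
  exact hp.not_isUnit (hrel h3 h)

lemma embX_algebraMap (u : K[X]) :
    embX (algebraMap K[X] (RatFunc K) u) = algebraMap _ (FractionRing K[X][Y]) (C u) :=
  IsFractionRing.lift_algebraMap _ u

lemma embY_algebraMap (u : K[X]) :
    embY (algebraMap K[X] (RatFunc K) u) = algebraMap _ (FractionRing K[X][Y]) (u.map C) :=
  IsFractionRing.lift_algebraMap _ u

lemma not_dvd_C {p : K[X][Y]} (hx : ∀ u : K[X], p ≠ C u) {u : K[X]} (hu : u ≠ 0) :
    ¬ p ∣ C u := by
  intro h
  have h1 := natDegree_le_of_dvd h (C_ne_zero.mpr hu)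
  rw [natDegree_C] at h1
  exact natDegree_ne_zero hx (Nat.le_zero.mp h1)

lemma not_dvd_map {p : K[X][Y]} (hy : ∀ u : K[X], p ≠ u.map C) {u : K[X]} (hu : u ≠ 0) :
    ¬ p ∣ u.map C := by
  intro h
  have h1 := map_dvd (Bivariate.swap (R := K)) h
  rw [Bivariate.swap_map_C] at h1
  exact not_dvd_C (swap_ne_C hy) hu h1

/-- Two disjoint good orbits give a nonconstant separated multiple. -/
lemma exists_separated [IsAlgClosed K] [DecidableEq K] {p : K[X][Y]} (hp : Irreducible p)
    (hx : ∀ u : K[X], p ≠ C u) (hy : ∀ u : K[X], p ≠ u.map C) {O O' : Finset (K × K)}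
    (hO : Good p O) (hO' : Good p O') (hdisj : Disjoint O O') (hne : O.Nonempty)
    (hne' : O'.Nonempty) :
    ∃ fg ∈ separatedMultiples p, ∀ c : K, fg ≠ (RatFunc.C c, RatFunc.C c) := by
  have hdeg := natDegree_ne_zero hx
  have hdeg' := natDegree_ne_zero (swap_ne_C hy)
  have hprime : (Ideal.span {p}).IsPrime :=
    (Ideal.span_singleton_prime hp.ne_zero).mpr hp.prime
  let L := FractionRing (K[X][Y] ⧸ Ideal.span {p})
  let φ : K[X][Y] →ₐ[K] L :=
    (IsScalarTower.toAlgHom K (K[X][Y] ⧸ Ideal.span {p}) L).comp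
      (Ideal.Quotient.mkₐ K (Ideal.span {p}))
  have hφ0 : ∀ q, φ q = 0 ↔ p ∣ q := by
    intro q
    rw [← Ideal.mem_span_singleton, ← Ideal.Quotient.eq_zero_iff_mem]
    exact (IsFractionRing.injective (K[X][Y] ⧸ Ideal.span {p}) L).eq_iff' (map_zero _)
  set x : L := φ (C X) with hxdef
  set y : L := φ X with hydef
  have hφ : ∀ q, aevalAeval x y q = φ q := by
    intro q
    have : aevalAeval x y = φ := by
      apply Polynomial.algHom_ext'
      · apply Polynomial.algHom_ext
        simp [hxdef]
      · simp [hydef]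
    rw [this]
  have hxy : aevalAeval x y p = 0 := by rw [hφ, hφ0]
  have hX : ∀ u : K[X], aeval x u = φ (C u) := by
    intro u
    rw [← hφ]; simp
  have hY : ∀ u : K[X], aeval y u = φ (u.map C) := by
    intro u
    rw [hydef]
    induction u using Polynomial.induction_on' with
    | add p q hp hq => rw [map_add, hp, hq, Polynomial.map_add, map_add]
    | monomial n a =>
      rw [map_monomial, ← C_mul_X_pow_eq_monomial, ← C_mul_X_pow_eq_monomial, map_mul, map_mul,
        map_pow, map_pow, aeval_X, aeval_C]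
      congr 1
  set a1 := prodPoly (O.image Prod.fst)
  set a2 := prodPoly (O'.image Prod.fst)
  set b1 := prodPoly (O.image Prod.snd)
  set b2 := prodPoly (O'.image Prod.snd)
  have ha1 : a1 ≠ 0 := prodPoly_ne_zero _
  have ha2 : a2 ≠ 0 := prodPoly_ne_zero _
  have hb1 : b1 ≠ 0 := prodPoly_ne_zero _
  have hb2 : b2 ≠ 0 := prodPoly_ne_zero _
  have hX0 : ∀ u : K[X], u ≠ 0 → aeval x u ≠ 0 := by
    intro u hu
    rw [hX, ne_eq, hφ0]
    exact not_dvd_C hx hu
  have hY0 : ∀ u : K[X], u ≠ 0 → aeval y u ≠ 0 := by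
    intro u hu
    rw [hY, ne_eq, hφ0]
    exact not_dvd_map hy hu
  -- multiplicities
  set m := (O'.image Prod.fst).card with hm
  set m' := (O.image Prod.fst).card with hm'
  have h1 : m * (O.image Prod.fst).card = m' * (O'.image Prod.fst).card := by
    rw [mul_comm]
  have hsndimg : ∀ T : Finset (K × K), (flip T).image Prod.fst = T.image Prod.snd := by
    intro T
    rw [flip, Finset.image_image]
    rfl
  have hcardflip : ∀ T : Finset (K × K), (flip T).card = T.card := by
    intro T
    rw [flip, Finset.card_image_of_injective _ Prod.swap_injective]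
  have h2 : m * (O.image Prod.snd).card = m' * (O'.image Prod.snd).card := by
    have e1 := card_orbit hO.fst
    have e2 := card_orbit hO'.fst
    have e3 := card_orbit hO.snd
    have e4 := card_orbit hO'.snd
    rw [hcardflip, hsndimg] at e3 e4
    apply Nat.eq_of_mul_eq_mul_left (Nat.pos_of_ne_zero hdeg')
    calc (Bivariate.swap p).natDegree * (m * (O.image Prod.snd).card)
        = m * ((Bivariate.swap p).natDegree * (O.image Prod.snd).card) := by ring
      _ = m * (p.natDegree * m') := by rw [← e3, e1]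
      _ = m' * (p.natDegree * m) := by ring
      _ = m' * ((Bivariate.swap p).natDegree * (O'.image Prod.snd).card) := by rw [← e2, e4]
      _ = (Bivariate.swap p).natDegree * (m' * (O'.image Prod.snd).card) := by ring
  -- the constant
  obtain ⟨c, hc⟩ := const_of_unit (K := K)
    (h := (aeval x a1 ^ m * aeval y b2 ^ m') / (aeval y b1 ^ m * aeval x a2 ^ m')) (by
      intro B hB
      have h3 := val_ratio hB hdeg hdeg' hO hO' hdisj hxy h1 h2
      rw [map_div₀, map_mul, map_mul, map_pow, map_pow, map_pow, map_pow, h3]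
      apply div_self
      apply mul_ne_zero
      · exact pow_ne_zero _ ((Valuation.ne_zero_iff _).mpr (hY0 _ hb1))
      · exact pow_ne_zero _ ((Valuation.ne_zero_iff _).mpr (hX0 _ ha2)))
  have hden : aeval y b1 ^ m * aeval x a2 ^ m' ≠ 0 :=
    mul_ne_zero (pow_ne_zero _ (hY0 _ hb1)) (pow_ne_zero _ (hX0 _ ha2))
  rw [eq_div_iff hden] at hc
  set f : RatFunc K := algebraMap K[X] (RatFunc K) (a1 ^ m) / algebraMap K[X] (RatFunc K) (a2 ^ m')
    with hf
  set g : RatFunc K := algebraMap K[X] (RatFunc K) (C c * b1 ^ m) /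
    algebraMap K[X] (RatFunc K) (b2 ^ m') with hg
  have hinj := IsFractionRing.injective K[X][Y] (FractionRing K[X][Y])
  refine ⟨(f, g), ?_, ?_⟩
  · rw [separatedMultiples, Set.mem_ofPred_eq]
    simp only
    have hd1 : algebraMap _ (FractionRing K[X][Y]) (C (a2 ^ m')) ≠ 0 := by
      rw [ne_eq, map_eq_zero_iff _ hinj, C_eq_zero]
      exact pow_ne_zero _ ha2
    have hd2 : algebraMap _ (FractionRing K[X][Y]) ((b2 ^ m').map C) ≠ 0 := by
      rw [ne_eq, map_eq_zero_iff _ hinj, Polynomial.map_eq_zero_iff C_injective]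
      exact pow_ne_zero _ hb2
    have heq : embX f - embY g = algebraMap _ (FractionRing K[X][Y])
        (C (a1 ^ m) * (b2 ^ m').map C - (C c * b1 ^ m).map C * C (a2 ^ m')) /
        algebraMap _ (FractionRing K[X][Y]) (C (a2 ^ m') * (b2 ^ m').map C) := by
      rw [hf, hg, map_div₀, map_div₀, embX_algebraMap, embX_algebraMap, embY_algebraMap,
        embY_algebraMap, map_sub, map_mul, map_mul, map_mul, div_sub_div _ _ hd1 hd2]
      congr 1
      ring
    rw [heq]
    apply mem_multiples hp
    · intro h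
      rcases hp.prime.dvd_or_dvd h with h | h
      · exact not_dvd_C hx (pow_ne_zero _ ha2) h
      · exact not_dvd_map hy (pow_ne_zero _ hb2) h
    · rw [← hφ0, map_sub, map_mul, map_mul, ← hX, ← hX, ← hY, ← hY, map_pow, map_pow, map_pow,
        map_mul, map_pow, aeval_C]
      linear_combination -hc
  · intro c' h
    have h3 : f = RatFunc.C c' := congrArg Prod.fst h
    have hd : algebraMap K[X] (RatFunc K) (a2 ^ m') ≠ 0 := by
      rw [ne_eq, map_eq_zero_iff _ (IsFractionRing.injective K[X] (RatFunc K))]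
      exact pow_ne_zero _ ha2
    rw [hf, div_eq_iff hd, ← RatFunc.algebraMap_C, ← map_mul] at h3
    have h4 := IsFractionRing.injective K[X] (RatFunc K) h3
    obtain ⟨P, hP⟩ := hne
    obtain ⟨P', hP'⟩ := hne'
    have hPm : P.1 ∈ O.image Prod.fst := Finset.mem_image_of_mem _ hP
    have hm0 : m ≠ 0 := by
      rw [hm]
      exact (Finset.card_pos.mpr ⟨P'.1, Finset.mem_image_of_mem _ hP'⟩).ne'
    have h5 := congrArg (eval P.1) h4
    rw [eval_pow, eval_prodPoly_eq_zero hPm, zero_pow hm0, eval_mul, eval_C, eval_pow] at h5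
    have h6 : (prodPoly (O'.image Prod.fst)).eval P.1 ≠ 0 := by
      apply eval_prodPoly_ne_zero
      intro hmem
      obtain ⟨Q, hQ, hQP⟩ := Finset.mem_image.mp hmem
      have h7 := (hO'.fst Q hQ).2.2.2 P.2 (by rw [hQP]; exact (hO.fst _ hP).1)
      rw [hQP] at h7
      exact Finset.disjoint_left.mp hdisj hP h7
    have h7 : c' = 0 := by
      rcases mul_eq_zero.mp h5.symm with h | h
      · exact h
      · exact absurd h (pow_ne_zero _ h6)
    rw [h7, C_0, zero_mul] at h4
    exact pow_ne_zero _ ha1 h4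

end Separated

section Graph

variable {K : Type*} [Field K]

/-- The exceptional points of the curve: points at infinity and points where a partial derivative
vanishes. -/
def badPoints (p : K[X][Y]) : Set (curve p) :=
  {P | P.1.1 = OnePoint.infty ∨ P.1.2 = OnePoint.infty ∨
    ∃ x y : K, P.1 = ((x : OnePoint K), (y : OnePoint K)) ∧
      ((derivative p).evalEval x y = 0 ∨ (derivative (Bivariate.swap p)).evalEval y x = 0)}

lemma mem_curve_coe {p : K[X][Y]} {x y : K} :
    ((x : OnePoint K), (y : OnePoint K)) ∈ curve p ↔ p.evalEval x y = 0 := by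
  rw [curve, Set.mem_ofPred_eq, bihom_coe_coe]

lemma finite_badPoints [CharZero K] {p : K[X][Y]} (hp : Irreducible p)
    (hx : ∀ u : K[X], p ≠ C u) (hy : ∀ u : K[X], p ≠ u.map C) : (badPoints p).Finite := by
  apply Set.Finite.of_finite_image (f := Subtype.val) _ Subtype.val_injective.injOn
  have f1 : ((Bivariate.swap p).leadingCoeff.rootSet K).Finite := rootSet_finite _ _
  have f2 : (p.leadingCoeff.rootSet K).Finite := rootSet_finite _ _
  have f3 := finite_common hp hx hy (not_dvd_derivative hx)
  have hnd : ¬ p ∣ Bivariate.swap (derivative (Bivariate.swap p)) := by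
    intro h
    have h1 := map_dvd (Bivariate.swap (R := K)) h
    rw [Bivariate.swap_swap_apply] at h1
    exact not_dvd_derivative (swap_ne_C hy) h1
  have f4 := finite_common hp hx hy hnd
  refine ((((Set.finite_singleton ((OnePoint.infty, OnePoint.infty) : OnePoint K × OnePoint K)).union
    (f1.image fun y : K => ((OnePoint.infty : OnePoint K), (y : OnePoint K)))).union
    (f2.image fun x : K => ((x : OnePoint K), (OnePoint.infty : OnePoint K)))).union
    ((f3.union f4).image fun P : K × K => ((P.1 : OnePoint K), (P.2 : OnePoint K)))).subset ?_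
  have hlc : p.leadingCoeff ≠ 0 := leadingCoeff_ne_zero.mpr hp.ne_zero
  have hlc' : (Bivariate.swap p).leadingCoeff ≠ 0 :=
    leadingCoeff_ne_zero.mpr (irreducible_swap hp).ne_zero
  rintro _ ⟨⟨⟨P, Q⟩, hPQ⟩, hbad, rfl⟩
  simp only
  induction P using OnePoint.rec with
  | infty =>
    induction Q using OnePoint.rec with
    | infty => left; left; left; rfl
    | coe y =>
      left; left; right
      refine ⟨y, ?_, rfl⟩
      rw [mem_rootSet]
      refine ⟨hlc', ?_⟩
      have h := hPQ
      rw [curve, Set.mem_ofPred_eq, bihom_infty_coe] at h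
      simpa using h
  | coe x =>
    induction Q using OnePoint.rec with
    | infty =>
      left; right
      refine ⟨x, ?_, rfl⟩
      rw [mem_rootSet]
      refine ⟨hlc, ?_⟩
      have h := hPQ
      rw [curve, Set.mem_ofPred_eq, bihom_coe_infty] at h
      simpa using h
    | coe y =>
      right
      refine ⟨(x, y), ?_, rfl⟩
      rcases hbad with h | h | ⟨x', y', h, h'⟩
      · exact absurd h (OnePoint.coe_ne_infty x)
      · exact absurd h (OnePoint.coe_ne_infty y)
      · rw [Prod.mk.injEq, OnePoint.coe_eq_coe, OnePoint.coe_eq_coe] at h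
        obtain ⟨rfl, rfl⟩ := h
        have h0 : p.evalEval x y = 0 := mem_curve_coe.mp hPQ
        rcases h' with h' | h'
        · exact Or.inl ⟨h0, h'⟩
        · exact Or.inr ⟨h0, by rw [evalEval_swap]; exact h'⟩

lemma mem_supp_of_coord {p : K[X][Y]} {c : (orbitGraph p).ConnectedComponent} {P Q : curve p}
    (hP : P ∈ c.supp) (h : P.1.1 = Q.1.1 ∨ P.1.2 = Q.1.2) : Q ∈ c.supp := by
  by_cases hPQ : P = Q
  · rwa [← hPQ]
  · have hadj : (orbitGraph p).Adj P Q := ⟨hPQ, h⟩
    exact (SimpleGraph.ConnectedComponent.mem_supp_congr_adj c hadj).mp hP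

/-- The affine points of an orbit. -/
def affPart {p : K[X][Y]} (c : (orbitGraph p).ConnectedComponent) : Set (K × K) :=
  {P | ∃ Q ∈ c.supp, Q.1 = ((P.1 : OnePoint K), (P.2 : OnePoint K))}

lemma affPart_finite {p : K[X][Y]} {c : (orbitGraph p).ConnectedComponent}
    (hc : c.supp.Finite) : (affPart c).Finite := by
  have hinj : Function.Injective
      (fun P : K × K => ((P.1 : OnePoint K), (P.2 : OnePoint K))) := by
    rintro ⟨a, b⟩ ⟨a', b'⟩ h
    simp only [Prod.mk.injEq, OnePoint.coe_eq_coe] at h
    exact Prod.ext h.1 h.2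
  apply Set.Finite.of_finite_image _ hinj.injOn
  apply (hc.image Subtype.val).subset
  rintro _ ⟨P, ⟨Q, hQ, hQP⟩, rfl⟩
  exact ⟨Q, hQ, hQP⟩

lemma good_affPart [DecidableEq K] {p : K[X][Y]} {c : (orbitGraph p).ConnectedComponent}
    (hc : c.supp.Finite) (hbad : ∀ P ∈ c.supp, P ∉ badPoints p) :
    Good p (affPart_finite hc).toFinset := by
  constructor
  · rintro ⟨a, b⟩ hab
    rw [Set.Finite.mem_toFinset] at hab
    obtain ⟨Q, hQ, hQab⟩ := hab
    have hQ0 := hbad Q hQ
    have hQc : Q.1 ∈ curve p := Q.2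
    refine ⟨?_, ?_, ?_, ?_⟩
    · rw [hQab] at hQc
      exact mem_curve_coe.mp hQc
    · intro h
      exact hQ0 (Or.inr (Or.inr ⟨a, b, hQab, Or.inl h⟩))
    · intro h
      have hmem : ((a : OnePoint K), (OnePoint.infty : OnePoint K)) ∈ curve p := by
        rw [curve, Set.mem_ofPred_eq, bihom_coe_infty]
        exact h
      have h1 := mem_supp_of_coord (Q := ⟨_, hmem⟩) hQ (Or.inl (by rw [hQab]))
      exact hbad _ h1 (Or.inr (Or.inl rfl))
    · intro b' hb'
      have hmem : ((a : OnePoint K), (b' : OnePoint K)) ∈ curve p := mem_curve_coe.mpr hb'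
      have h1 := mem_supp_of_coord (Q := ⟨_, hmem⟩) hQ (Or.inl (by rw [hQab]))
      rw [Set.Finite.mem_toFinset]
      exact ⟨_, h1, rfl⟩
  · rintro ⟨b, a⟩ hab
    rw [mem_flip, Set.Finite.mem_toFinset] at hab
    obtain ⟨Q, hQ, hQab⟩ := hab
    have hQ0 := hbad Q hQ
    have hQc : Q.1 ∈ curve p := Q.2
    refine ⟨?_, ?_, ?_, ?_⟩
    · rw [hQab] at hQc
      rw [evalEval_swap]
      exact mem_curve_coe.mp hQc
    · intro h
      exact hQ0 (Or.inr (Or.inr ⟨a, b, hQab, Or.inr h⟩))
    · intro h
      have hmem : ((OnePoint.infty : OnePoint K), (b : OnePoint K)) ∈ curve p := by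
        rw [curve, Set.mem_ofPred_eq, bihom_infty_coe]
        exact h
      have h1 := mem_supp_of_coord (Q := ⟨_, hmem⟩) hQ (Or.inr (by rw [hQab]))
      exact hbad _ h1 (Or.inl rfl)
    · intro a' ha'
      rw [evalEval_swap] at ha'
      have hmem : ((a' : OnePoint K), (b : OnePoint K)) ∈ curve p := mem_curve_coe.mpr ha'
      have h1 := mem_supp_of_coord (Q := ⟨_, hmem⟩) hQ (Or.inr (by rw [hQab]))
      rw [mem_flip, Set.Finite.mem_toFinset]
      exact ⟨_, h1, rfl⟩

lemma affPart_nonempty {p : K[X][Y]} {c : (orbitGraph p).ConnectedComponent}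
    (hbad : ∀ P ∈ c.supp, P ∉ badPoints p) : (affPart c).Nonempty := by
  obtain ⟨⟨⟨P, Q⟩, hPQ⟩, hmem⟩ := c.nonempty_supp
  have h := hbad _ hmem
  induction P using OnePoint.rec with
  | infty => exact absurd (Or.inl rfl) h
  | coe x =>
    induction Q using OnePoint.rec with
    | infty => exact absurd (Or.inr (Or.inl rfl)) h
    | coe y => exact ⟨(x, y), _, hmem, rfl⟩

end Graph

/-- If the field of separated multiples `F(p)` is trivial, then the curve `C` of `p` has only
finitely many finite orbits. -/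
theorem result {K : Type*} [Field K] [IsAlgClosed K] [CharZero K] (p : K[X][Y])
    (hp : Irreducible p) (hx : ∀ u : K[X], p ≠ C u) (hy : ∀ u : K[X], p ≠ u.map C)
    (htriv : ∀ fg ∈ separatedMultiples p, ∃ c : K, fg = (RatFunc.C c, RatFunc.C c)) :
    {c : (orbitGraph p).ConnectedComponent | c.supp.Finite}.Finite := by
  classical
  have hsub : {c : (orbitGraph p).ConnectedComponent | c.supp.Finite} ⊆
      ((orbitGraph p).connectedComponentMk '' badPoints p) ∪
      {c : (orbitGraph p).ConnectedComponent | c.supp.Finite ∧ ∀ P ∈ c.supp, P ∉ badPoints p} := by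
    intro c hc
    by_cases h : ∀ P ∈ c.supp, P ∉ badPoints p
    · exact Or.inr ⟨hc, h⟩
    · push Not at h
      obtain ⟨P, hP, hPb⟩ := h
      exact Or.inl ⟨P, hPb, hP⟩
  apply Set.Finite.subset _ hsub
  apply ((finite_badPoints hp hx hy).image _).union
  apply Set.Subsingleton.finite
  rintro c ⟨hc, hcb⟩ c' ⟨hc', hcb'⟩
  by_contra hne
  have hdisj : Disjoint (affPart_finite hc).toFinset (affPart_finite hc').toFinset := by
    rw [Finset.disjoint_left]
    intro P hP hP'
    rw [Set.Finite.mem_toFinset] at hP hP'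
    obtain ⟨Q, hQ, hQP⟩ := hP
    obtain ⟨Q', hQ', hQP'⟩ := hP'
    have : Q = Q' := Subtype.ext (hQP.trans hQP'.symm)
    subst this
    exact hne (hQ.symm.trans hQ')
  obtain ⟨fg, hfg, hnc⟩ := exists_separated hp hx hy (good_affPart hc hcb) (good_affPart hc' hcb')
    hdisj (by
      obtain ⟨P, hP⟩ := affPart_nonempty hcb
      exact ⟨P, by rwa [Set.Finite.mem_toFinset]⟩) (by
      obtain ⟨P, hP⟩ := affPart_nonempty hcb'
      exact ⟨P, by rwa [Set.Finite.mem_toFinset]⟩)
  obtain ⟨c0, hc0⟩ := htriv fg hfg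
  exact hnc c0 hc0

end Pool.Agent.Results.MP_f5f7dd_ag.FiniteOrbits
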